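import Pool.Agent.helper80.EN.Spec2

/-! Row `et:ESB`, from `HPR` and `TRF`. -/

set_option autoImplicit false

namespace Pool.Agent.helper80.EN

open Subgroup

universe u

theorem ESB_icom {G H : Type u} [Group G] [Group H] (e : G ≃* H) (x y : G) (n : ℕ) :
    icom (e x) (e y) n = e (icom x y n) := by
  induction n with
  | zero => rfl
  | succ n ih =>
    change com (icom (e x) (e y) n) (e y) = e (com (icom x y n) y)
    rw [ih]
    simp [com]

theorem ESB_left {G H : Type u} [Group G] [Group H] (e : G ≃* H) (a : G) (h : LeftEngel a) :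
    LeftEngel (e a) := by
  intro g
  obtain ⟨n, hn⟩ := h (e.symm g)
  refine ⟨n, ?_⟩
  have := ESB_icom e (e.symm g) a n
  rw [MulEquiv.apply_symm_apply, hn, map_one] at this
  exact this

theorem ESB_mem (h1 : HPR_stmt.{u}) (h2 : TRF_stmt.{u}) {G H : Type u} [Group G] [Group H]
    (e : G ≃* H) (a : G) (ha : a ∈ HP G) : e a ∈ HP H := by
  obtain ⟨hn, hl, -, -⟩ := h1 G
  obtain ⟨-, hmap, -⟩ := h2 G
  have hm : LocNilp ((HP G).map e.toMonoidHom) := hmap H e.toMonoidHom (HP G) hl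
  have hN : ((HP G).map e.toMonoidHom).Normal := hn.map e.toMonoidHom e.surjective
  exact (h1 H).2.2.1 _ hN hm (Subgroup.mem_map_of_mem e.toMonoidHom ha)

theorem ESB_iff (h1 : HPR_stmt.{u}) (h2 : TRF_stmt.{u}) {G H : Type u} [Group G] [Group H]
    (e : G ≃* H) (a : G) : a ∈ HP G ↔ e a ∈ HP H := by
  refine ⟨ESB_mem h1 h2 e a, fun h => ?_⟩
  have := ESB_mem h1 h2 e.symm (e a) h
  rwa [MulEquiv.symm_apply_apply] at this

theorem ESB (h1 : HPR_stmt.{u}) (h2 : TRF_stmt.{u}) : ESB_stmt.{u} := by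
  refine ⟨?_, ?_, ?_⟩
  · intro G H _ _ e a
    exact ESB_iff h1 h2 e a
  · intro G H _ _ f hf hE B a ha
    let e : B ≃* (B.map f) := B.equivMapOfInjective f hf
    exact (ESB_iff h1 h2 e a).2 (hE (B.map f) (e a) (ESB_left e a ha))
  · intro G _ hE a ha
    let e : (⊤ : Subgroup G) ≃* G := Subgroup.topEquiv
    have h := hE ⊤ (e.symm a) (ESB_left e.symm a ha)
    have := (ESB_iff h1 h2 e (e.symm a)).1 h
    rwa [MulEquiv.apply_symm_apply] at this

end Pool.Agent.helper80.EN
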