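import Pool.Agent.helper62.EN.SpecA

/-!
# Row ksy:SBA: subadditivity of the Shannon entropy
-/

set_option autoImplicit false

namespace Pool.Agent.EN

theorem SBA_pt (x a b : ℝ) (hx : 0 ≤ x) (ha : x ≤ a) (hb : x ≤ b) :
    Real.negMulLog x + x * Real.log a + x * Real.log b ≤ a * b - x := by
  rcases hx.eq_or_lt with h | h
  · rw [← h] at ha hb
    rw [← h, Real.negMulLog_zero, zero_mul, zero_mul, add_zero, add_zero, sub_zero]
    exact mul_nonneg ha hb
  · have ha' : 0 < a := lt_of_lt_of_le h ha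
    have hb' : 0 < b := lt_of_lt_of_le h hb
    have h1 := Real.log_le_sub_one_of_pos (div_pos (mul_pos ha' hb') h)
    rw [Real.log_div (mul_pos ha' hb').ne' h.ne', Real.log_mul ha'.ne' hb'.ne'] at h1
    have h2 := mul_le_mul_of_nonneg_left h1 h.le
    have h3 : x * (a * b / x - 1) = a * b - x := by
      field_simp
    rw [h3] at h2
    unfold Real.negMulLog
    linarith

theorem SBA_proof : SBA_stmt := by
  intro ι κ _ _ q hq hs
  have h1 : ∀ i k, Real.negMulLog (q i k) + q i k * Real.log (∑ k, q i k) + q i k * Real.log (∑ i, q i k) ≤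
      (∑ k, q i k) * (∑ i, q i k) - q i k := by
    intro i k
    exact SBA_pt _ _ _ (hq i k) (Finset.single_le_sum (fun k _ => hq i k) (Finset.mem_univ k))
      (Finset.single_le_sum (fun i _ => hq i k) (Finset.mem_univ i))
  have h2 := Finset.sum_le_sum fun i (_ : i ∈ Finset.univ) => Finset.sum_le_sum fun k (_ : k ∈ Finset.univ) => h1 i k
  have h3 : ∑ i, ∑ k, (Real.negMulLog (q i k) + q i k * Real.log (∑ k, q i k) + q i k * Real.log (∑ i, q i k)) =
      ∑ i, ∑ k, Real.negMulLog (q i k) + ∑ i, (∑ k, q i k) * Real.log (∑ k, q i k) +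
        ∑ k, (∑ i, q i k) * Real.log (∑ i, q i k) := by
    have e1 : ∑ k, (∑ i, q i k) * Real.log (∑ i, q i k) = ∑ i, ∑ k, q i k * Real.log (∑ i, q i k) := by
      rw [Finset.sum_comm]
      refine Finset.sum_congr rfl fun k _ => ?_
      rw [Finset.sum_mul]
    have e2 : ∑ i, (∑ k, q i k) * Real.log (∑ k, q i k) = ∑ i, ∑ k, q i k * Real.log (∑ k, q i k) := by
      refine Finset.sum_congr rfl fun i _ => ?_
      rw [Finset.sum_mul]
    rw [e1, e2, ← Finset.sum_add_distrib, ← Finset.sum_add_distrib]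
    refine Finset.sum_congr rfl fun i _ => ?_
    rw [← Finset.sum_add_distrib, ← Finset.sum_add_distrib]
  have h4 : ∑ i, ∑ k, ((∑ k, q i k) * (∑ i, q i k) - q i k) = 0 := by
    have e1 : ∑ i, ∑ k, ((∑ k, q i k) * (∑ i, q i k) - q i k) =
        (∑ i, ∑ k, q i k) * (∑ k, ∑ i, q i k) - ∑ i, ∑ k, q i k := by
      rw [Finset.sum_mul, ← Finset.sum_sub_distrib]
      refine Finset.sum_congr rfl fun i _ => ?_
      rw [Finset.mul_sum, ← Finset.sum_sub_distrib]
    rw [e1, Finset.sum_comm (f := fun k i => q i k), hs]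
    norm_num
  rw [h3, h4] at h2
  have h5 : ∑ i, Real.negMulLog (∑ k, q i k) = -∑ i, (∑ k, q i k) * Real.log (∑ k, q i k) := by
    rw [← Finset.sum_neg_distrib]
    refine Finset.sum_congr rfl fun i _ => ?_
    unfold Real.negMulLog
    ring
  have h6 : ∑ k, Real.negMulLog (∑ i, q i k) = -∑ k, (∑ i, q i k) * Real.log (∑ i, q i k) := by
    rw [← Finset.sum_neg_distrib]
    refine Finset.sum_congr rfl fun k _ => ?_
    unfold Real.negMulLog
    ring
  rw [h5, h6]
  linarith

end Pool.Agent.EN
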